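import Pool.Agent.helper75.IQ.Spec

/-! # Row iq:LOW: the lower bound of the perimeter -/

set_option autoImplicit false

namespace Pool.Agent.helper75.IQ

open MeasureTheory Set

theorem LOW_GG (κ τ r : ℝ) (hκ : κ ≤ 0) (hk : -4 < κ * r ^ 2) :
    ContinuousOn (GG κ τ) (Icc 0 (r ^ 2)) := by
  unfold GG lam
  refine ContinuousOn.mul (Continuous.continuousOn (by fun_prop)) ?_
  refine ContinuousOn.pow ?_ 2
  refine ContinuousOn.inv₀ (Continuous.continuousOn (by fun_prop)) fun w hw => ?_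
  have h1 : κ * r ^ 2 ≤ κ * w := mul_le_mul_of_nonpos_left hw.2 hκ
  have h2 : 0 < 1 + κ / 4 * w := by linarith
  exact h2.ne'

theorem LOW (hCAL : CAL_stmt) : LOW_stmt := by
  intro κ τ r m E hκ hE hT
  obtain ⟨hr0, hrk, -, -, -⟩ := id hT
  by_cases hP : per κ τ E = ⊤
  · rw [hP]
    exact le_top
  rw [ENNReal.ofReal_le_iff_le_toReal hP]
  set V := (vol κ E).toReal with hV
  set P := (per κ τ E).toReal with hPdef
  have hGc := LOW_GG κ τ r hκ hrk
  have hG0 : ∀ w, 0 ≤ GG κ τ w := fun w => by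
    unfold GG
    positivity
  set f : ℝ → ℝ := fun w => √(1 - w / r ^ 2) * GG κ τ w with hf
  have hfc : ContinuousOn f (Icc 0 (r ^ 2)) :=
    ContinuousOn.mul (Continuous.continuousOn (by fun_prop)) hGc
  have huI : uIcc (0 : ℝ) (r ^ 2) = Icc 0 (r ^ 2) := uIcc_of_le (by positivity)
  have hg : ContinuousOn (fun x => ∫ w in (0 : ℝ)..x, f w) (Icc 0 (r ^ 2)) := by
    have h0 : IntegrableOn f (uIcc (0 : ℝ) (r ^ 2)) := by
      rw [huI]
      exact hfc.integrableOn_Icc
    have h1 := intervalIntegral.continuousOn_primitive_interval h0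
    rwa [huI] at h1
  have key : ∀ s ∈ Ioo (0 : ℝ) 1,
      2 * (s / r) * V + 2 * Real.pi * ∫ w in (0 : ℝ)..(s * r) ^ 2, f w ≤ P := by
    intro s hs
    have hsr : 0 < s * r := mul_pos hs.1 hr0
    have hsr1 : s * r < r := by nlinarith [hs.2]
    have hsr2 : (s * r) ^ 2 ≤ r ^ 2 := by
      apply pow_le_pow_left₀ hsr.le hsr1.le
    obtain ⟨Y, hY, hle, -⟩ := hCAL κ τ r m E hκ hE hT (s / r) (s * r) 1 0
      (div_nonneg hs.1.le hr0.le) (by rw [div_mul_cancel₀ _ hr0.ne']; exact hs.2) hsr hsr1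
      one_pos
    have h1 : TT κ τ E Y ≤ P := by
      rw [hPdef, ← ENNReal.ofReal_le_iff_le_toReal hP]
      exact le_iSup₂ (f := fun (Y : VF) (_ : Adm κ Y) => ENNReal.ofReal (TT κ τ E Y)) Y hY
    have hsub : Icc 0 ((s * r) ^ 2) ⊆ Icc 0 (r ^ 2) := Icc_subset_Icc le_rfl hsr2
    have h2 : ∫ w in (0 : ℝ)..(s * r) ^ 2, f w ≤
        ∫ w in (0 : ℝ)..(s * r) ^ 2, √(1 - (s / r) ^ 2 * w) * GG κ τ w := by
      apply intervalIntegral.integral_mono_on (by positivity)
      · exact ContinuousOn.intervalIntegrable_of_Icc (by positivity) (hfc.mono hsub)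
      · exact ContinuousOn.intervalIntegrable_of_Icc (by positivity)
          (ContinuousOn.mul (Continuous.continuousOn (by fun_prop)) (hGc.mono hsub))
      · intro w hw
        refine mul_le_mul_of_nonneg_right (Real.sqrt_le_sqrt ?_) (hG0 w)
        have h3 : (s / r) ^ 2 * w ≤ w / r ^ 2 := by
          rw [div_pow, div_mul_eq_mul_div]
          apply div_le_div_of_nonneg_right _ (by positivity)
          have h4 : s ^ 2 ≤ 1 := by nlinarith [hs.1, hs.2]
          nlinarith [hw.1]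
        linarith
    have h5 : 2 * Real.pi * ∫ w in (0 : ℝ)..(s * r) ^ 2, f w ≤ 2 * Real.pi *
        ∫ w in (0 : ℝ)..(s * r) ^ 2, √(1 - (s / r) ^ 2 * w) * GG κ τ w :=
      mul_le_mul_of_nonneg_left h2 (by positivity)
    linarith
  have hcl : (1 : ℝ) ∈ closure (Ioo (0 : ℝ) 1) := by
    rw [closure_Ioo zero_ne_one]
    exact right_mem_Icc.2 zero_le_one
  have hφ : ContinuousWithinAt (fun s : ℝ => 2 * (s / r) * V + 2 * Real.pi *
      ∫ w in (0 : ℝ)..(s * r) ^ 2, f w) (Ioo 0 1) 1 := by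
    have h1 : ContinuousOn (fun s : ℝ => ∫ w in (0 : ℝ)..(s * r) ^ 2, f w) (Icc 0 1) := by
      refine hg.comp (f := fun s : ℝ => (s * r) ^ 2) (Continuous.continuousOn (by fun_prop))
        fun s hs => ⟨by positivity, ?_⟩
      apply pow_le_pow_left₀ (mul_nonneg hs.1 hr0.le)
      nlinarith [hs.2]
    have h2 : ContinuousOn (fun s : ℝ => 2 * (s / r) * V + 2 * Real.pi *
        ∫ w in (0 : ℝ)..(s * r) ^ 2, f w) (Icc 0 1) :=
      ContinuousOn.add (Continuous.continuousOn (by fun_prop)) (continuousOn_const.mul h1)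
    exact (h2 1 (right_mem_Icc.2 zero_le_one)).mono Ioo_subset_Icc_self
  have h := ContinuousWithinAt.closure_le hcl hφ (continuousWithinAt_const (b := P)) key
  simp only [one_mul] at h
  have e : 2 / r * V + FF κ τ r = 2 * (1 / r) * V + 2 * Real.pi * ∫ w in (0 : ℝ)..r ^ 2, f w := by
    unfold FF
    ring
  rw [e]
  exact h

end Pool.Agent.helper75.IQ
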